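import Pool.Agent.H174.GM.Stmts

/-! GM tasks PERM, FLIP, REF (helper162). -/

set_option autoImplicit false

namespace Pool.Agent.H162.GM174

open Finset Pool.Agent.H174.GM

section basic
variable {R : Type} [CommRing R] {k : ℕ}

lemma uu_one_sub (x : R) : uu (1 - x) = uu x := by unfold uu; ring

lemma uu_flp (ε : Fin k → Bool) (X : Fin k → R) (i : Fin k) : uu (flp ε X i) = uu (X i) := by
  unfold flp
  split_ifs
  · exact uu_one_sub _
  · rfl

lemma uu_sub (x y : R) : (x - y) * (1 - x - y) = uu x - uu y := by unfold uu; ring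

lemma mem_pairs (p : Fin k × Fin k) : p ∈ pairs k ↔ p.1 < p.2 := by
  simp [pairs]

lemma prod_pairs (h : Fin k → Fin k → R) :
    ∏ p ∈ pairs k, h p.1 p.2 = ∏ i, ∏ j ∈ Ioi i, h i j := by
  rw [pairs, Finset.prod_filter, Fintype.prod_prod_type]
  refine Finset.prod_congr rfl (fun i _ => ?_)
  rw [← Finset.prod_filter]
  refine Finset.prod_congr ?_ (fun _ _ => rfl)
  ext j
  simp

lemma prod_pairs_comp (h : Fin k → Fin k → R) (hs : ∀ i j, h i j = h j i)
    (τ : Equiv.Perm (Fin k)) :
    ∏ p ∈ pairs k, h (τ p.1) (τ p.2) = ∏ p ∈ pairs k, h p.1 p.2 := by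
  have aux : ∀ τ : Equiv.Perm (Fin k), ∀ p ∈ pairs k,
      (if τ p.1 < τ p.2 then (τ p.1, τ p.2) else (τ p.2, τ p.1)) ∈ pairs k := by
    intro τ p hp
    rw [mem_pairs] at hp ⊢
    split_ifs with h1
    · exact h1
    · have : τ p.1 ≠ τ p.2 := fun h => (ne_of_lt hp) (τ.injective h)
      exact lt_of_le_of_ne (not_lt.1 h1) this.symm
  have inv : ∀ τ : Equiv.Perm (Fin k), ∀ p ∈ pairs k,
      (if τ⁻¹ (if τ p.1 < τ p.2 then (τ p.1, τ p.2) else (τ p.2, τ p.1)).1 <
        τ⁻¹ (if τ p.1 < τ p.2 then (τ p.1, τ p.2) else (τ p.2, τ p.1)).2 then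
        (τ⁻¹ (if τ p.1 < τ p.2 then (τ p.1, τ p.2) else (τ p.2, τ p.1)).1,
        τ⁻¹ (if τ p.1 < τ p.2 then (τ p.1, τ p.2) else (τ p.2, τ p.1)).2) else
        (τ⁻¹ (if τ p.1 < τ p.2 then (τ p.1, τ p.2) else (τ p.2, τ p.1)).2,
        τ⁻¹ (if τ p.1 < τ p.2 then (τ p.1, τ p.2) else (τ p.2, τ p.1)).1)) = p := by
    intro τ p hp
    rw [mem_pairs] at hp
    have hi : ∀ x, τ⁻¹ (τ x) = x := fun x => by simp
    by_cases h1 : τ p.1 < τ p.2
    · simp only [if_pos h1, hi, if_pos hp]
    · simp only [if_neg h1, hi, if_neg (not_lt.2 hp.le)]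
  refine Finset.prod_bij' (fun p _ => if τ p.1 < τ p.2 then (τ p.1, τ p.2) else (τ p.2, τ p.1))
    (fun p _ => if τ⁻¹ p.1 < τ⁻¹ p.2 then (τ⁻¹ p.1, τ⁻¹ p.2) else (τ⁻¹ p.2, τ⁻¹ p.1))
    (aux τ) (aux τ⁻¹) (inv τ) ?_ ?_
  · intro p hp
    have := inv τ⁻¹ p hp
    rw [inv_inv] at this
    exact this
  · intro p hp
    split_ifs
    · rfl
    · exact hs _ _

lemma prod_pairs_sign (u : Fin k → R) (τ : Equiv.Perm (Fin k)) :
    ∏ p ∈ pairs k, (u (τ p.1) - u (τ p.2)) =
      (Equiv.Perm.sign τ : ℤ) • ∏ p ∈ pairs k, (u p.1 - u p.2) := by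
  have h1 : ∀ v : Fin k → R, ∏ p ∈ pairs k, (v p.1 - v p.2) =
      (Matrix.vandermonde (fun i => - v i)).det := by
    intro v
    rw [Matrix.det_vandermonde, prod_pairs (fun i j => v i - v j)]
    refine Finset.prod_congr rfl (fun i _ => Finset.prod_congr rfl (fun j _ => ?_))
    ring
  rw [h1 u]
  have h2 := h1 (fun i => u (τ i))
  rw [h2]
  have h3 : Matrix.vandermonde (fun i => - u (τ i)) =
      (Matrix.vandermonde (fun i => - u i)).submatrix τ id := by
    ext i j
    rfl
  rw [h3, Matrix.det_permute, zsmul_eq_mul]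

/-! ### signs -/

lemma sg_update (ε : Fin k → Bool) (j : Fin k) :
    sg (Function.update ε j (!ε j)) = - sg ε := by
  unfold sg
  rw [← Finset.mul_prod_erase univ _ (mem_univ j),
    ← Finset.mul_prod_erase univ (fun i => if ε i then (-1 : ℤ) else 1) (mem_univ j)]
  have h1 : ∏ i ∈ univ.erase j, (if Function.update ε j (!ε j) i = true then (-1 : ℤ) else 1) =
      ∏ i ∈ univ.erase j, (if ε i = true then (-1 : ℤ) else 1) := by
    refine Finset.prod_congr rfl (fun i hi => ?_)
    rw [Function.update_of_ne (Finset.ne_of_mem_erase hi)]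
  rw [h1, Function.update_self]
  cases ε j <;> simp

lemma sg_xor (ε δ : Fin k → Bool) : sg (fun i => xor (δ i) (ε i)) = sg δ * sg ε := by
  unfold sg
  rw [← Finset.prod_mul_distrib]
  refine Finset.prod_congr rfl (fun i _ => ?_)
  cases hδ : δ i <;> cases hε : ε i <;> simp [hδ, hε]

lemma flp_flp (ε δ : Fin k → Bool) (X : Fin k → R) :
    flp δ (flp ε X) = flp (fun i => xor (δ i) (ε i)) X := by
  funext i
  unfold flp
  cases hδ : δ i <;> cases hε : ε i <;> simp [hδ, hε]

end basic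

theorem flip : S_FLIP := by
  intro R _ k X ε
  refine ⟨fun a => ?_, ?_, ?_⟩
  · unfold br
    rw [Finset.smul_sum]
    have hinv : Function.Involutive (fun δ : Fin k → Bool => fun i => xor (δ i) (ε i)) := by
      intro δ
      funext i
      simp
    refine Fintype.sum_equiv (Function.Involutive.toPerm _ hinv) _ _ (fun δ => ?_)
    have h1 : Function.Involutive.toPerm _ hinv δ = fun i => xor (δ i) (ε i) := rfl
    rw [h1, flp_flp, sg_xor, smul_smul]
    have h2 : sg ε * (sg δ * sg ε) = sg δ := by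
      have h3 : sg ε * sg ε = 1 := by
        rw [← sg_xor]
        unfold sg
        simp
      calc sg ε * (sg δ * sg ε) = sg δ * (sg ε * sg ε) := by ring
        _ = sg δ := by rw [h3, mul_one]
    rw [h2]
  · unfold dd
    refine Finset.prod_congr rfl (fun p _ => ?_)
    rw [uu_flp, uu_flp]
  · unfold db
    have h1 : ∏ i, (1 - 2 * flp ε X i) = ((sg ε : ℤ) : R) * ∏ i, (1 - 2 * X i) := by
      unfold sg
      rw [Int.cast_prod, ← Finset.prod_mul_distrib]
      refine Finset.prod_congr rfl (fun i _ => ?_)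
      unfold flp
      split_ifs
      · push_cast; ring
      · push_cast; ring
    rw [h1, zsmul_eq_mul, mul_assoc]
    congr 2
    refine Finset.prod_congr rfl (fun p _ => ?_)
    rw [uu_sub, uu_sub, uu_flp, uu_flp]

theorem perm : S_PERM := by
  intro R _ k X τ
  have haa : ∀ (Y : Fin k → R) (a : Fin k → ℕ),
      aa a (Y ∘ τ) = (Equiv.Perm.sign τ : ℤ) • aa a Y := by
    intro Y a
    unfold aa
    rw [Finset.smul_sum]
    refine Fintype.sum_equiv (Equiv.mulLeft τ) _ _ (fun σ => ?_)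
    rw [Equiv.coe_mulLeft, smul_smul, Equiv.Perm.sign_mul]
    have h1 : (Equiv.Perm.sign τ : ℤ) * ((Equiv.Perm.sign τ * Equiv.Perm.sign σ : ℤˣ) : ℤ) =
        (Equiv.Perm.sign σ : ℤ) := by
      rw [Units.val_mul, ← mul_assoc, ← Units.val_mul, Int.units_mul_self, Units.val_one, one_mul]
    rw [h1]
    rfl
  refine ⟨haa X, fun a => ?_, ?_, ?_⟩
  · unfold br
    rw [Finset.smul_sum]
    refine Fintype.sum_equiv (Equiv.arrowCongr τ (Equiv.refl Bool)) _ _ (fun ε => ?_)
    have h1 : flp ε (X ∘ τ) = (flp (Equiv.arrowCongr τ (Equiv.refl Bool) ε) X) ∘ τ := by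
      funext i
      simp [flp, Equiv.arrowCongr]
    have h2 : sg (Equiv.arrowCongr τ (Equiv.refl Bool) ε) = sg ε := by
      unfold sg
      rw [← Equiv.prod_comp τ]
      refine Finset.prod_congr rfl (fun i _ => ?_)
      simp [Equiv.arrowCongr]
    rw [h1, h2, haa, smul_comm]
  · unfold dd
    exact prod_pairs_comp (fun i j => d2 (uu (X i)) (uu (X j)))
      (fun i j => by unfold d2; ring) τ
  · unfold db
    have h1 : ∏ i, (1 - 2 * (X ∘ τ) i) = ∏ i, (1 - 2 * X i) :=
      Equiv.prod_comp τ (fun i => 1 - 2 * X i)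
    rw [h1]
    have h2 : ∏ p ∈ pairs k, ((X ∘ τ) p.1 - (X ∘ τ) p.2) * (1 - (X ∘ τ) p.1 - (X ∘ τ) p.2) =
        (Equiv.Perm.sign τ : ℤ) • ∏ p ∈ pairs k, ((X p.1 - X p.2) * (1 - X p.1 - X p.2)) := by
      have h3 := prod_pairs_sign (fun i => uu (X i)) τ
      have h4 : ∏ p ∈ pairs k, ((X p.1 - X p.2) * (1 - X p.1 - X p.2)) =
          ∏ p ∈ pairs k, (uu (X p.1) - uu (X p.2)) :=
        Finset.prod_congr rfl (fun p _ => uu_sub _ _)
      rw [h4, ← h3]
      exact Finset.prod_congr rfl (fun p _ => uu_sub _ _)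
    rw [h2, mul_smul_comm]

theorem ref : S_REF := by
  intro R _ k hk X a ha
  unfold br aa
  simp only [Finset.smul_sum]
  rw [Finset.sum_comm]
  apply Finset.sum_eq_zero
  intro σ _
  set j := σ ⟨0, hk⟩ with hj
  refine Finset.sum_involution (fun ε _ => Function.update ε j (!ε j)) ?_ ?_ ?_ ?_
  · intro ε _
    rw [sg_update]
    have h1 : ff a (flp (Function.update ε j (!ε j)) X ∘ σ) = ff a (flp ε X ∘ σ) := by
      unfold ff cc
      congr 1
      · refine Finset.prod_congr rfl (fun i _ => ?_)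
        by_cases hi : i = ⟨0, hk⟩
        · subst hi
          rw [ha, pow_zero, pow_zero]
        · have h2 : σ i ≠ j := fun h => hi (σ.injective h)
          simp only [Function.comp_apply, flp]
          rw [Function.update_of_ne h2]
      · refine Finset.prod_congr rfl (fun p hp => ?_)
        rw [mem_pairs] at hp
        have hp2 : p.2 ≠ ⟨0, hk⟩ := by
          intro h
          rw [h] at hp
          exact absurd hp (by simp [Fin.lt_def])
        have h2 : σ p.2 ≠ j := fun h => hp2 (σ.injective h)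
        simp only [Function.comp_apply]
        rw [uu_flp, uu_flp]
        congr 1
        simp only [flp]
        rw [Function.update_of_ne h2]
    rw [h1, neg_smul]
    exact add_neg_cancel _
  · intro ε _ _ h
    have := congrFun h j
    rw [Function.update_self] at this
    cases h2 : ε j <;> simp [h2] at this
  · intro ε _
    exact mem_univ _
  · intro ε _
    rw [Function.update_self, Bool.not_not, Function.update_idem, Function.update_eq_self]

end Pool.Agent.H162.GM174
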